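import Pool.Agent.Lib.MP_d47134_co.Asy.Conv2

/-!
# Asymptotically optimal two-even subgraph covers
-/

set_option autoImplicit false

namespace Pool.Agent.Results.MP_d47134_co.AsymptoticCover

/-- Let all odd edge cuts of a finite loopless multigraph with `n` vertices and `m` edges have at
least `k > 3` edges. For every `ν > 0` there are two even-degree edge sets which together cover
all edges and whose sizes sum to at most `(1 + 1 / k + 8 / k ^ 2) m + 30 n / ν + 5 y`, where `y`
is the number of vertices with fewer than `ν` distinct neighbours. (For a simple graph with all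
degrees at least `k`, `ν = k` gives `(1 + 1 / k + 68 / k ^ 2) m`.) -/
theorem result :
  ∀ (V E : Type) [Finite V] [Finite E] (ends : E → Sym2 V),
    (∀ e, ¬ (ends e).IsDiag) →
    ∀ k : ℕ, 3 < k →
    (∀ X : Set V,
        Odd (Nat.card {e : E // ∃ u v, ends e = s(u, v) ∧ u ∈ X ∧ v ∉ X}) →
        k ≤ Nat.card {e : E // ∃ u v, ends e = s(u, v) ∧ u ∈ X ∧ v ∉ X}) →
    ∀ ν : ℕ, 0 < ν →
    ∃ A B : Set E, A ∪ B = Set.univ ∧
      (∀ v : V, Even (Nat.card {e : E // e ∈ A ∧ v ∈ ends e})) ∧
      (∀ v : V, Even (Nat.card {e : E // e ∈ B ∧ v ∈ ends e})) ∧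
      ((A.ncard : ℝ) + B.ncard) ≤ (1 + 1 / k + 8 / k ^ 2) * Nat.card E +
        30 / ν * Nat.card V +
        5 * Nat.card {v : V // Nat.card {u : V // ∃ e, ends e = s(v, u)} < ν} := by
  classical
  intro V E _ _ ends hl k hk hcut ν hν
  cases nonempty_fintype V
  cases nonempty_fintype E
  obtain ⟨a, b, hends, hne⟩ := Lib.MP_d47134_co.exists_ends ends hl
  have hc := Lib.MP_d47134_co.conv_cut hends
  have ho : Lib.MP_d47134_co.OC k a b := fun X hX => by
    have := hcut (X : Set V)
    rw [hc] at this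
    exact this hX
  obtain ⟨A, B, hAB, hA, hB, hs⟩ := Lib.MP_d47134_co.Asy.asy hne (by omega) hν ho
  refine ⟨A, B, ?_, fun v => ?_, fun v => ?_, ?_⟩
  · rw [← Finset.coe_union, hAB, Finset.coe_univ]
  · rw [Lib.MP_d47134_co.conv_deg hends hne]; exact hA v
  · rw [Lib.MP_d47134_co.conv_deg hends hne]; exact hB v
  · rw [Set.ncard_coe_finset, Set.ncard_coe_finset, Lib.MP_d47134_co.Asy.conv_few hends,
      Nat.card_eq_fintype_card, Nat.card_eq_fintype_card]
    exact hs

end Pool.Agent.Results.MP_d47134_co.AsymptoticCover
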