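import Pool.Agent.Lib.MP_d47134_co.Conv

/-!
# Short two-even subgraph covers: graphs with few odd vertices or large balanced odd cuts
-/

set_option autoImplicit false

namespace Pool.Agent.Results.MP_d47134_co.BalancedOddCuts

/-- In a finite loopless multigraph with `m` edges where every odd edge cut has at least `k > 3`
edges, and every odd edge cut with at least `k + 2` vertices of odd degree on each side has more
than `m / k` edges, two even-degree edge sets exist that together cover all edges and whose
sizes sum to at most `(k + 1) m / k`. (With at most `2 k + 3` vertices of odd degree there are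
no cuts of the second kind.) -/
theorem result :
  ∀ (V E : Type) [Finite V] [Finite E] (ends : E → Sym2 V),
    (∀ e, ¬ (ends e).IsDiag) →
    ∀ k : ℕ, 3 < k →
    (∀ X : Set V,
        Odd (Nat.card {e : E // ∃ u v, ends e = s(u, v) ∧ u ∈ X ∧ v ∉ X}) →
        k ≤ Nat.card {e : E // ∃ u v, ends e = s(u, v) ∧ u ∈ X ∧ v ∉ X}) →
    (∀ X : Set V,
        Odd (Nat.card {e : E // ∃ u v, ends e = s(u, v) ∧ u ∈ X ∧ v ∉ X}) →
        k + 2 ≤ Nat.card {v : V // v ∈ X ∧ Odd (Nat.card {e : E // v ∈ ends e})} →
        k + 2 ≤ Nat.card {v : V // v ∉ X ∧ Odd (Nat.card {e : E // v ∈ ends e})} →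
        Nat.card E < k * Nat.card {e : E // ∃ u v, ends e = s(u, v) ∧ u ∈ X ∧ v ∉ X}) →
    ∃ A B : Set E, A ∪ B = Set.univ ∧
      (∀ v : V, Even (Nat.card {e : E // e ∈ A ∧ v ∈ ends e})) ∧
      (∀ v : V, Even (Nat.card {e : E // e ∈ B ∧ v ∈ ends e})) ∧
      k * (A.ncard + B.ncard) ≤ (k + 1) * Nat.card E := by
  classical
  intro V E _ _ ends hl k hk hcut hbal
  cases nonempty_fintype V
  cases nonempty_fintype E
  obtain ⟨a, b, hends, hne⟩ := Lib.MP_d47134_co.exists_ends ends hl
  have hdeg := Lib.MP_d47134_co.conv_deg' hends hne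
  have hc := Lib.MP_d47134_co.conv_cut hends
  apply Lib.MP_d47134_co.conv_out hends hne
  refine Lib.MP_d47134_co.cover (by omega) (fun X hX => ?_) fun X hX h1 h2 => ?_
  · have := hcut (X : Set V)
    rw [hc] at this
    exact this hX
  · have h := hbal (X : Set V)
    rw [hc, Nat.card_eq_fintype_card, Nat.card_eq_fintype_card, Nat.card_eq_fintype_card,
      Fintype.card_subtype, Fintype.card_subtype] at h
    refine h hX (h1.trans (le_of_eq ?_)) (h2.trans (le_of_eq ?_))
    · unfold Lib.MP_d47134_co.ov
      congr 1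
      ext v
      simp only [Finset.mem_filter, Finset.mem_univ, true_and, hdeg, Finset.mem_coe]
    · unfold Lib.MP_d47134_co.ov
      congr 1
      ext v
      simp only [Finset.mem_filter, Finset.mem_univ, true_and, hdeg, Finset.mem_coe,
        Finset.mem_compl]

end Pool.Agent.Results.MP_d47134_co.BalancedOddCuts
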