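import Pool.Agent.Lib.MP_d47134_co.Asy.Conv2

/-!
# Two-even subgraph covers of the conjectured length in graphs with enough edges
-/

set_option autoImplicit false

namespace Pool.Agent.Results.MP_d47134_co.ExactManyEdges

/-- Let all odd edge cuts of a finite loopless multigraph with `n` vertices and `m` edges have at
least `k > 3` edges, let `t` be the number of vertices of odd degree and `M` a matching whose
edges join vertices of odd degree (for instance `M = ∅`). Let `ν > 0` and let `y` be the number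
of vertices with fewer than `ν` distinct neighbours. If
`k (t - |M|) + (5 / 4 + k (24 + 6 log (1 + ν / 2)) / ν) n + 3 k y ≤ m`,
then two even-degree edge sets exist that together cover all edges and whose sizes sum to at
most `(k + 1) m / k`. (For a simple graph with all degrees at least `k`, take `ν = k`, `y = 0`.) -/
theorem result :
  ∀ (V E : Type) [Finite V] [Finite E] (ends : E → Sym2 V),
    (∀ e, ¬ (ends e).IsDiag) →
    ∀ k : ℕ, 3 < k →
    (∀ X : Set V,
        Odd (Nat.card {e : E // ∃ u v, ends e = s(u, v) ∧ u ∈ X ∧ v ∉ X}) →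
        k ≤ Nat.card {e : E // ∃ u v, ends e = s(u, v) ∧ u ∈ X ∧ v ∉ X}) →
    ∀ M : Set E,
    (∀ e ∈ M, ∀ v ∈ ends e, Odd (Nat.card {f : E // v ∈ ends f})) →
    (∀ e ∈ M, ∀ f ∈ M, ∀ v, v ∈ ends e → v ∈ ends f → e = f) →
    ∀ ν : ℕ, 0 < ν →
    (k * (Nat.card {v : V // Odd (Nat.card {e : E // v ∈ ends e})} - M.ncard : ℝ) +
        (5 / 4 + k * (24 + 6 * Real.log (1 + ν / 2)) / ν) * Nat.card V +
        3 * k * Nat.card {v : V // Nat.card {u : V // ∃ e, ends e = s(v, u)} < ν}
      ≤ Nat.card E) →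
    ∃ A B : Set E, A ∪ B = Set.univ ∧
      (∀ v : V, Even (Nat.card {e : E // e ∈ A ∧ v ∈ ends e})) ∧
      (∀ v : V, Even (Nat.card {e : E // e ∈ B ∧ v ∈ ends e})) ∧
      k * (A.ncard + B.ncard) ≤ (k + 1) * Nat.card E := by
  classical
  intro V E _ _ ends hl k hk hcut M hM1 hM2 ν hν hedge
  cases nonempty_fintype V
  cases nonempty_fintype E
  obtain ⟨a, b, hends, hne⟩ := Lib.MP_d47134_co.exists_ends ends hl
  have hc := Lib.MP_d47134_co.conv_cut hends
  have ho : Lib.MP_d47134_co.OC k a b := fun X hX => by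
    have := hcut (X : Set V)
    rw [hc] at this
    exact this hX
  have hmem : ∀ e v, v ∈ ends e ↔ (v = a e ∨ v = b e) := fun e v => by
    rw [hends, Sym2.mem_iff]
  have hMf : M = (M.toFinset : Set E) := by simp
  obtain ⟨A, B, hAB, hA, hB, hs⟩ := Lib.MP_d47134_co.Asy.mat hne (by omega) hν ho
    (M := M.toFinset)
    (by
      intro e he
      rw [Set.mem_toFinset] at he
      have h1 := hM1 e he
      simp only [Lib.MP_d47134_co.conv_deg' hends hne] at h1
      exact ⟨Finset.mem_filter.2 ⟨Finset.mem_univ _, h1 _ ((hmem _ _).2 (Or.inl rfl))⟩,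
        Finset.mem_filter.2 ⟨Finset.mem_univ _, h1 _ ((hmem _ _).2 (Or.inr rfl))⟩⟩)
    (by
      intro e he f hf v hve hvf
      rw [Set.mem_toFinset] at he hf
      exact hM2 e he f hf v ((hmem _ _).2 hve) ((hmem _ _).2 hvf))
  refine ⟨A, B, ?_, fun v => ?_, fun v => ?_, ?_⟩
  · rw [← Finset.coe_union, hAB, Finset.coe_univ]
  · rw [Lib.MP_d47134_co.conv_deg hends hne]; exact hA v
  · rw [Lib.MP_d47134_co.conv_deg hends hne]; exact hB v
  · rw [Lib.MP_d47134_co.Asy.conv_few hends, Lib.MP_d47134_co.Asy.conv_odv hends hne,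
      Nat.card_eq_fintype_card, Nat.card_eq_fintype_card, hMf, Set.ncard_coe_finset] at hedge
    rw [Set.ncard_coe_finset, Set.ncard_coe_finset, Nat.card_eq_fintype_card]
    have hk' : (4 : ℝ) ≤ k := by exact_mod_cast hk
    have h1 := mul_le_mul_of_nonneg_left hs (by linarith : (0 : ℝ) ≤ k)
    have h2 : (k : ℝ) * (Fintype.card E + (Lib.MP_d47134_co.Asy.odv a b).card -
          M.toFinset.card + (5 / (4 * k) + (24 + 6 * Real.log (1 + ν / 2)) / ν) *
          Fintype.card V + 3 * (Lib.MP_d47134_co.Asy.few a b ν).card) =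
        k * Fintype.card E + (k * ((Lib.MP_d47134_co.Asy.odv a b).card -
          M.toFinset.card : ℝ) + (5 / 4 + k * (24 + 6 * Real.log (1 + ν / 2)) / ν) *
          Fintype.card V + 3 * k * (Lib.MP_d47134_co.Asy.few a b ν).card) := by
      field_simp
      ring
    rw [h2] at h1
    have h3 : (k : ℝ) * (A.card + B.card) ≤ (k + 1) * Fintype.card E := by linarith
    exact_mod_cast h3

end Pool.Agent.Results.MP_d47134_co.ExactManyEdges
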