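import Pool.Agent.Lib.MP_d47134_co.Reg.Conv3

/-!
# Asymptotically optimal two-even subgraph covers of regular multigraphs
-/

set_option autoImplicit false

namespace Pool.Agent.Results.MP_d47134_co.RegularMultigraphs

/-- Let all odd edge cuts of a finite loopless multigraph with `m` edges and `t` vertices of odd
degree have at least `k > 3` edges. There are two even-degree edge sets which together cover all
edges and whose sizes sum to at most `(1 + 2 / k + 20 / k ^ (4 / 3)) m - t / 2`. For `k`-regular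
multigraphs, `k` odd, this is `(1 + 1 / k + 20 / k ^ (4 / 3)) m`. -/
theorem result :
  ∀ (V E : Type) [Finite V] [Finite E] (ends : E → Sym2 V),
    (∀ e, ¬ (ends e).IsDiag) →
    ∀ k : ℕ, 3 < k →
    (∀ X : Set V,
        Odd (Nat.card {e : E // ∃ u v, ends e = s(u, v) ∧ u ∈ X ∧ v ∉ X}) →
        k ≤ Nat.card {e : E // ∃ u v, ends e = s(u, v) ∧ u ∈ X ∧ v ∉ X}) →
    ∃ A B : Set E, A ∪ B = Set.univ ∧
      (∀ v : V, Even (Nat.card {e : E // e ∈ A ∧ v ∈ ends e})) ∧
      (∀ v : V, Even (Nat.card {e : E // e ∈ B ∧ v ∈ ends e})) ∧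
      ((A.ncard : ℝ) + B.ncard) ≤ (1 + 2 / k + 20 / (k : ℝ) ^ (4 / 3 : ℝ)) * Nat.card E -
        (Nat.card {v : V // Odd (Nat.card {e : E // v ∈ ends e})} : ℝ) / 2 := by
  classical
  intro V E _ _ ends hl k hk hcut
  cases nonempty_fintype V
  cases nonempty_fintype E
  obtain ⟨a, b, hends, hne⟩ := Lib.MP_d47134_co.exists_ends ends hl
  have hc := Lib.MP_d47134_co.conv_cut hends
  have ho : Lib.MP_d47134_co.OC k a b := fun X hX => by
    have := hcut (X : Set V)
    rw [hc] at this
    exact this hX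
  obtain ⟨A, B, hAB, hA, hB, hs⟩ := Lib.MP_d47134_co.reg_cover (by omega) ho
  refine ⟨A, B, ?_, fun v => ?_, fun v => ?_, ?_⟩
  · rw [← Finset.coe_union, hAB, Finset.coe_univ]
  · rw [Lib.MP_d47134_co.conv_deg hends hne]; exact hA v
  · rw [Lib.MP_d47134_co.conv_deg hends hne]; exact hB v
  · rw [Set.ncard_coe_finset, Set.ncard_coe_finset, Lib.MP_d47134_co.conv_ov hends hne,
      Nat.card_eq_fintype_card]
    exact hs

end Pool.Agent.Results.MP_d47134_co.RegularMultigraphs
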